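import Pool.Agent.Helper84.Int.Full
import Pool.Agent.Helper1.Stab.K.BottFin

/-!
# `Σ^∞ BSU₊[x₄⁻¹]` is the wedge of countably many copies of periodic complex bordism

The definitions are in `Pool/Agent/Helper1/Stab/Defs.lean`.
-/

open CategoryTheory

namespace Pool.Agent.Results.MP_ab4156_gt.CountableWedge

open Pool.Agent.Helper1.Stab

/-- For every generator `f` of `π_4(BSU)`, `Σ^∞ BSU₊[f⁻¹]` is isomorphic in the stable homotopy
category to the wedge of countably many copies of `MUP = Σ^∞ BU₊[β⁻¹]`. -/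
theorem result : ∀ (k : ℕ) (f : GenLoop (Fin 4) (Gr {1} k) (Gr.pt {1} k)), Generates f →
    Nonempty (spec (SBSU f) ≅ spec (wedge fun _ : ℕ => MUP)) :=
  KT.bottSHC Pool.Agent.Helper84.Int.fullness

end Pool.Agent.Results.MP_ab4156_gt.CountableWedge
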