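import Pool.Agent.Helper56.BSU.Main

/-!
# `Σ^∞ BSU₊[x₄⁻¹]` splits `p`-locally into even suspensions of `BP`, for every prime `p`

The definitions are in `Pool/Agent/Helper1/Stab/Defs.lean`. The proof is a retraction of
`Σ^∞ BSU₊[x₄⁻¹]` off a countable wedge of copies of `MUP = Σ^∞ BU₊[β⁻¹]`
(`Pool/Agent/Helper1/Stab/Final.lean`) followed by a Krull–Schmidt argument
(`Pool/Agent/Helper56/BSU/Derive.lean`).
-/

open CategoryTheory

namespace Pool.Agent.Results.MP_ab4156_gt.SplitsIntoBP

open Pool.Agent.Helper1.Stab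

/-- For every prime `p` and every generator `f` of `π_4(BSU)`, the `p`-localisation of
`Σ^∞ BSU₊[f⁻¹]` is a wedge of even suspensions of the Brown–Peterson spectrum at `p`. -/
theorem result : ∀ p : ℕ, p.Prime → ∀ B : Prespectrum, IsBP p B →
    ∀ (k : ℕ) (f : GenLoop (Fin 4) (Gr {1} k) (Gr.pt {1} k)), Generates f →
      ∃ (ι : Type) (n : ι → ℤ) (q : spec (SBSU f) ⟶ spec (wedge fun i => B.susp (2 * n i))),
        IsPLoc p q :=
  mainStatement

/-- The properties in `IsBP` determine the Brown–Peterson spectrum: two spectra with these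
properties are isomorphic. -/
theorem unique_bp : ∀ p : ℕ, p.Prime → ∀ B B' : Prespectrum, IsBP p B → IsBP p B' →
    Nonempty (spec B ≅ spec B') :=
  uniqueStatement

end Pool.Agent.Results.MP_ab4156_gt.SplitsIntoBP
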